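import Mathlib

/-!
# A balanced digraph which encodes a relation

For a set `R` of `k`-tuples over `B` we define a digraph on `Vert B k` of height `k + 2`. Its
bottom vertices are the elements of `B`, its top vertices are the tuples, and for every element
`a` and every tuple `r` of `R` there is a thick path from `a` to `r` in which the step number `i`
can be made in one move iff `a = r i`. A directed path is added as a further component.
-/

set_option autoImplicit false

namespace Pool.Agent.H84.Chain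

/-- Kinds of inner vertices. -/
inductive Kind
  | m
  | u
  | d

/-- The vertices of the encoding. -/
inductive Vert (B : Type) (k : ℕ) : Type
  | bot (a : B)
  | top (r : Fin k → B)
  | mid (a : B) (r : Fin k → B) (l : Fin (k + 1)) (t : Kind)
  | pth (l : Fin (k + 2))

/-- The edges of the encoding. -/
inductive Edge {B : Type} {k : ℕ} (R : Set (Fin k → B)) : Vert B k → Vert B k → Prop
  | start (a : B) (r : Fin k → B) (l : Fin (k + 1)) (hr : r ∈ R) (hl : l.val = 0) :
      Edge R (.bot a) (.mid a r l .m)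
  | mu (a : B) (r : Fin k → B) (l l' : Fin (k + 1)) (hr : r ∈ R) (hl : l'.val = l.val + 1) :
      Edge R (.mid a r l .m) (.mid a r l' .u)
  | du (a : B) (r : Fin k → B) (l l' : Fin (k + 1)) (hr : r ∈ R) (hl : l'.val = l.val + 1) :
      Edge R (.mid a r l .d) (.mid a r l' .u)
  | dm (a : B) (r : Fin k → B) (l l' : Fin (k + 1)) (hr : r ∈ R) (hl : l'.val = l.val + 1) :
      Edge R (.mid a r l .d) (.mid a r l' .m)
  | mm (a : B) (r : Fin k → B) (l l' : Fin (k + 1)) (hr : r ∈ R) (hl : l'.val = l.val + 1)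
      (h : ∀ i : Fin k, i.val = l.val → a = r i) :
      Edge R (.mid a r l .m) (.mid a r l' .m)
  | last (a : B) (r : Fin k → B) (l : Fin (k + 1)) (hr : r ∈ R) (hl : l.val = k) :
      Edge R (.mid a r l .m) (.top r)
  | path (l l' : Fin (k + 2)) (hl : l'.val = l.val + 1) : Edge R (.pth l) (.pth l')

/-- The height of a vertex. -/
def ht {B : Type} {k : ℕ} : Vert B k → ℕ
  | .bot _ => 0
  | .top _ => k + 2
  | .mid _ _ l _ => l.val + 1
  | .pth l => l.val

theorem Edge.ht_eq {B : Type} {k : ℕ} {R : Set (Fin k → B)} {v w : Vert B k}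
    (h : Edge R v w) : ht w = ht v + 1 := by
  cases h <;> simp only [ht] <;> omega

/-- A polymorphism of the encoding restricts to the bottom vertices and to the top vertices and
preserves the relation. -/
theorem res_aux {B : Type} {k : ℕ} {ι : Type} (R : Set (Fin k → B))
    (g : (ι → Vert B k) → Vert B k)
    (hg : ∀ u v : ι → Vert B k, (∀ j, Edge R (u j) (v j)) → Edge R (g u) (g v))
    (y : ι → B) (ρ : ι → (Fin k → B)) (hρ : ∀ j, ρ j ∈ R) :
    ∃ (a : B) (r : Fin k → B), r ∈ R ∧ g (fun j => .bot (y j)) = .bot a ∧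
      g (fun j => .top (ρ j)) = .top r ∧ ∀ i : Fin k, (∀ j, y j = ρ j i) → a = r i := by
  let M : Fin (k + 1) → Vert B k := fun l => g (fun j => .mid (y j) (ρ j) l .m)
  let U : Fin (k + 1) → Vert B k := fun l => g (fun j => .mid (y j) (ρ j) l .u)
  let D : Fin (k + 1) → Vert B k := fun l => g (fun j => .mid (y j) (ρ j) l .d)
  have e0 : Edge R (g fun j => .bot (y j)) (M 0) :=
    hg _ _ fun j => .start _ _ _ (hρ j) rfl
  have e1 : ∀ l l' : Fin (k + 1), l'.val = l.val + 1 → Edge R (M l) (U l') :=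
    fun l l' h => hg _ _ fun j => .mu _ _ _ _ (hρ j) h
  have e2 : ∀ l l' : Fin (k + 1), l'.val = l.val + 1 → Edge R (D l) (U l') :=
    fun l l' h => hg _ _ fun j => .du _ _ _ _ (hρ j) h
  have e3 : ∀ l l' : Fin (k + 1), l'.val = l.val + 1 → Edge R (D l) (M l') :=
    fun l l' h => hg _ _ fun j => .dm _ _ _ _ (hρ j) h
  have e4 : ∀ l l' : Fin (k + 1), l'.val = l.val + 1 →
      (∀ i : Fin k, i.val = l.val → ∀ j, y j = ρ j i) → Edge R (M l) (M l') :=
    fun l l' h hh => hg _ _ fun j => .mm _ _ _ _ (hρ j) h fun i hi => hh i hi j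
  have e5 : Edge R (M (Fin.last k)) (g fun j => .top (ρ j)) :=
    hg _ _ fun j => .last _ _ _ (hρ j) (by simp)
  -- heights
  have hM : ∀ (n : ℕ) (hn : n < k + 1), ht (M ⟨n, hn⟩) = ht (g fun j => .bot (y j)) + 1 + n := by
    intro n
    induction n with
    | zero => intro hn; exact e0.ht_eq
    | succ n ih =>
      intro hn
      have h1 := ih (by omega)
      have h2 := (e1 ⟨n, by omega⟩ ⟨n + 1, hn⟩ rfl).ht_eq
      have h3 := (e2 ⟨n, by omega⟩ ⟨n + 1, hn⟩ rfl).ht_eq
      have h4 := (e3 ⟨n, by omega⟩ ⟨n + 1, hn⟩ rfl).ht_eq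
      omega
  have hlast := hM k (by omega)
  have htop := e5.ht_eq
  have hlast' : ht (M (Fin.last k)) = ht (g fun j => .bot (y j)) + 1 + k := hlast
  have htop' : k + 2 ≤ ht (g fun j => .top (ρ j)) := by omega
  obtain ⟨r, hr⟩ : ∃ r, (g fun j => .top (ρ j)) = .top r := by
    generalize (g fun j => Vert.top (ρ j)) = v at htop' ⊢
    cases v with
    | bot a => simp only [ht] at htop'; omega
    | top r => exact ⟨r, rfl⟩
    | mid a r l t => simp only [ht] at htop'; omega
    | pth l => simp only [ht] at htop'; omega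
  rw [hr] at e5
  obtain ⟨a, hrR, hMk⟩ : ∃ a, r ∈ R ∧ M (Fin.last k) = .mid a r (Fin.last k) .m := by
    generalize M (Fin.last k) = v at e5 ⊢
    cases e5 with
    | last a r l hr hl =>
      refine ⟨a, hr, ?_⟩
      have : l = Fin.last k := Fin.ext (by simpa using hl)
      rw [this]
  -- all the middle vertices
  have hin : ∀ l : Fin (k + 1), ∃ v, Edge R v (M l) := by
    intro l
    rcases Nat.eq_zero_or_pos l.val with h | h
    · have : l = 0 := Fin.ext h
      rw [this]
      exact ⟨_, e0⟩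
    · exact ⟨_, e3 ⟨l.val - 1, by omega⟩ l (by simp only; omega)⟩
  have hstep : ∀ l l' : Fin (k + 1), l'.val = l.val + 1 → M l' = .mid a r l' .m →
      M l = .mid a r l .m := by
    intro l l' hl h
    have h3 := e3 l l' hl
    rw [h] at h3
    have h2 := e2 l l' hl
    have h1 := e1 l l' hl
    obtain ⟨v, hv⟩ := hin l
    have hD : ∃ t, D l = .mid a r l t := by
      generalize D l = w at h3
      cases h3 with
      | dm _ _ l₁ _ _ hl₁ => exact ⟨.d, by rw [Fin.ext (by omega : l₁.val = l.val)]⟩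
      | mm _ _ l₁ _ _ hl₁ _ => exact ⟨.m, by rw [Fin.ext (by omega : l₁.val = l.val)]⟩
      | start _ _ _ _ hl₁ => omega
    obtain ⟨t, ht⟩ := hD
    rw [ht] at h2
    have hU : ∃ t', U l' = .mid a r l' t' := by
      generalize U l' = w at h2
      cases h2 with
      | mu _ _ _ l₁ _ hl₁ => exact ⟨.u, by rw [Fin.ext (by omega : l₁.val = l'.val)]⟩
      | du _ _ _ l₁ _ hl₁ => exact ⟨.u, by rw [Fin.ext (by omega : l₁.val = l'.val)]⟩
      | dm _ _ _ l₁ _ hl₁ => exact ⟨.m, by rw [Fin.ext (by omega : l₁.val = l'.val)]⟩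
      | mm _ _ _ l₁ _ hl₁ _ => exact ⟨.m, by rw [Fin.ext (by omega : l₁.val = l'.val)]⟩
      | last _ _ _ _ hl₁ => omega
    obtain ⟨t', ht'⟩ := hU
    rw [ht'] at h1
    generalize M l = w at h1 hv
    cases h1 with
    | mu _ _ l₁ _ _ hl₁ => rw [Fin.ext (by omega : l₁.val = l.val)]
    | du _ _ l₁ _ _ hl₁ => cases hv
    | dm _ _ l₁ _ _ hl₁ => cases hv
    | mm _ _ l₁ _ _ hl₁ _ => rw [Fin.ext (by omega : l₁.val = l.val)]
    | start _ _ _ _ hl₁ => omega
  have hall : ∀ (n : ℕ) (hn : n ≤ k), M ⟨k - n, by omega⟩ = .mid a r ⟨k - n, by omega⟩ .m := by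
    intro n
    induction n with
    | zero => intro hn; exact hMk
    | succ n ih =>
      intro hn
      exact hstep ⟨k - (n + 1), by omega⟩ ⟨k - n, by omega⟩ (by simp only; omega) (ih (by omega))
  have hall' : ∀ l : Fin (k + 1), M l = .mid a r l .m := by
    intro l
    have h := hall (k - l.val) (by omega)
    have h' : (⟨k - (k - l.val), by omega⟩ : Fin (k + 1)) = l := Fin.ext (by simp only; omega)
    rw [h'] at h
    exact h
  refine ⟨a, r, hrR, ?_, hr, ?_⟩
  · rw [hall' 0] at e0
    generalize (g fun j => Vert.bot (y j)) = v at e0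
    cases e0 with
    | start _ _ _ _ _ => rfl
    | dm _ _ _ _ _ hl => simp at hl
    | mm _ _ _ _ _ hl _ => simp at hl
  · intro i hi
    have h := e4 i.castSucc i.succ (by simp) (by
      intro i' hi' j
      have : i' = i := Fin.ext (by simpa using hi')
      rw [this]
      exact hi j)
    rw [hall', hall'] at h
    cases h with
    | mm _ _ _ _ _ _ h => exact h i (by simp)

end Pool.Agent.H84.Chain
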