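import Pool.Agent.H84.Chain.Enc

/-!
# Functors with supports, and the transfer from a relation to its digraph encoding
-/

set_option autoImplicit false

namespace Pool.Agent.H84.Chain

/-- A covariant functor from sets to sets with nonempty natural supports. -/
structure SF where
  obj : Type → Type
  map : ∀ {S T : Type}, (S → T) → obj S → obj T
  supp : ∀ {S : Type}, obj S → Set S
  map_id : ∀ {S : Type} (e : obj S), map (fun s => s) e = e
  map_map : ∀ {S T U : Type} (φ : S → T) (ψ : T → U) (e : obj S),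
    map ψ (map φ e) = map (fun s => ψ (φ s)) e
  supp_ne : ∀ {S : Type} [Finite S] (e : obj S), (supp e).Nonempty
  supp_map : ∀ {S T : Type} [Finite S] [Finite T] (φ : S → T) (e : obj S),
    supp (map φ e) = φ '' supp e
  map_congr : ∀ {S T : Type} [Finite S] (φ ψ : S → T) (e : obj S),
    (∀ s ∈ supp e, φ s = ψ s) → map φ e = map ψ e

variable {B : Type} {k : ℕ}

/-- The element of `B` under a vertex (with a default value). -/
def aOf (a₀ : B) : Vert B k → B
  | .bot a => a
  | .top _ => a₀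
  | .mid a _ _ _ => a
  | .pth _ => a₀

/-- The tuple over a vertex (with a default value). -/
def rOf (a₀ : B) : Vert B k → Fin k → B
  | .bot _ => fun _ => a₀
  | .top r => r
  | .mid _ r _ _ => r
  | .pth _ => fun _ => a₀

/-- The kind of a vertex. -/
def kOf : Vert B k → Kind
  | .bot _ => .m
  | .top _ => .m
  | .mid _ _ _ t => t
  | .pth _ => .m

/-- The vertex number `n` of the directed path. -/
def pthN (n : ℕ) : Vert B k := .pth (Fin.ofNat (k + 2) n)

theorem edge_pthN (R : Set (Fin k → B)) {n : ℕ} (hn : n + 1 < k + 2) :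
    Edge R (pthN n) (pthN (n + 1)) := by
  refine .path _ _ ?_
  simp only [Fin.val_ofNat]
  rw [Nat.mod_eq_of_lt hn, Nat.mod_eq_of_lt (by omega)]

/-- The vertex of height `n` over `(a, r)`, of kind `t`. -/
def mk (n : ℕ) (a : B) (r : Fin k → B) (t : Kind) : Vert B k :=
  if n = 0 then .bot a else if h : n - 1 < k + 1 then .mid a r ⟨n - 1, h⟩ t else .top r

theorem mk_zero (a : B) (r : Fin k → B) (t : Kind) : mk 0 a r t = .bot a := by
  simp [mk]

theorem mk_succ (n : ℕ) (a : B) (r : Fin k → B) (t : Kind) (h : n < k + 1) :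
    mk (n + 1) a r t = .mid a r ⟨n, h⟩ t := by
  simp [mk, h]

theorem mk_last (a : B) (r : Fin k → B) (t : Kind) : mk (k + 2) a r t = .top r := by
  simp [mk]

open Classical in
/-- The kind which is chosen for a set of vertices of height `n`. -/
noncomputable def tOf (a₀ : B) (n : ℕ) (S : Set (Vert B k)) : Kind :=
  if ∃ v ∈ S, kOf v = .u then .u
  else if (∃ v ∈ S, kOf v = .d) ∧
    ∀ v ∈ S, kOf v ≠ .d → ∀ i : Fin k, i.val + 1 = n → aOf a₀ v = rOf a₀ v i then .d
  else .m

open Classical in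
/-- The map on the vertices of the encoding. -/
noncomputable def phi (E : SF) (a₀ : B) (Ψ : E.obj B → B) (e : E.obj (Vert B k)) : Vert B k :=
  if ∃ l, Vert.pth l ∈ E.supp e then
    pthN (sInf {n | ∃ l : Fin (k + 2), Vert.pth l ∈ E.supp e ∧ l.val = n})
  else if ∃ n, ∀ v ∈ E.supp e, ht v = n then
    mk (sInf (ht '' E.supp e)) (Ψ (E.map (aOf a₀) e))
      (fun i => Ψ (E.map (fun v => rOf a₀ v i) e)) (tOf a₀ (sInf (ht '' E.supp e)) (E.supp e))
  else pthN (sInf (ht '' E.supp e))

/-- An edge from a vertex of positive height which is not on the directed path. -/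
theorem edge_cases {R : Set (Fin k → B)} {v w : Vert B k} (h : Edge R v w)
    (hp : ∀ l, v ≠ .pth l) :
    (∃ a r l, v = .bot a ∧ w = .mid a r l .m ∧ r ∈ R ∧ l.val = 0) ∨
    (∃ a r l l' t t', v = .mid a r l t ∧ w = .mid a r l' t' ∧ r ∈ R ∧ l'.val = l.val + 1 ∧
      t ≠ .u ∧ t' ≠ .d ∧ (t = .m → t' = .m → ∀ i : Fin k, i.val = l.val → a = r i)) ∨
    (∃ a r l, v = .mid a r l .m ∧ w = .top r ∧ r ∈ R ∧ l.val = k) := by
  cases h with
  | start a r l hr hl => exact Or.inl ⟨a, r, l, rfl, rfl, hr, hl⟩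
  | mu a r l l' hr hl =>
    exact Or.inr (Or.inl ⟨a, r, l, l', _, _, rfl, rfl, hr, hl, by simp, by simp, by simp⟩)
  | du a r l l' hr hl =>
    exact Or.inr (Or.inl ⟨a, r, l, l', _, _, rfl, rfl, hr, hl, by simp, by simp, by simp⟩)
  | dm a r l l' hr hl =>
    exact Or.inr (Or.inl ⟨a, r, l, l', _, _, rfl, rfl, hr, hl, by simp, by simp, by simp⟩)
  | mm a r l l' hr hl h =>
    exact Or.inr (Or.inl ⟨a, r, l, l', _, _, rfl, rfl, hr, hl, by simp, by simp, fun _ _ => h⟩)
  | last a r l hr hl => exact Or.inr (Or.inr ⟨a, r, l, rfl, rfl, hr, hl⟩)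
  | path l _ _ => exact absurd rfl (hp l)

theorem sInf_image_succ {S : Set ℕ} (hS : S.Nonempty) : sInf ((· + 1) '' S) = sInf S + 1 := by
  apply le_antisymm
  · exact Nat.sInf_le ⟨_, Nat.sInf_mem hS, rfl⟩
  · have h := Nat.sInf_mem (hS.image (· + 1))
    obtain ⟨n, hn, h⟩ := h
    rw [← h]
    exact Nat.succ_le_succ (Nat.sInf_le hn)

/-- The case of a set of edges which start at the same height. -/
theorem encode_level (E : SF) [Finite B] (R : Set (Fin k → B)) (a₀ : B) (Ψ : E.obj B → B)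
    (hΨ : ∀ h : E.obj (Fin k → B), E.supp h ⊆ R → (fun i => Ψ (E.map (fun r => r i) h)) ∈ R)
    [Finite (Vert B k)]
    (h : E.obj {p : Vert B k × Vert B k // Edge R p.1 p.2}) (n : ℕ)
    (hp : ∀ p ∈ E.supp h, ∀ l, p.1.1 ≠ Vert.pth l)
    (hn : ∀ p ∈ E.supp h, ht p.1.1 = n) (e₁ e₂ : E.obj (Vert B k))
    (he₁ : e₁ = E.map (fun p => p.1.1) h) (he₂ : e₂ = E.map (fun p => p.1.2) h) :
    Edge R (mk n (Ψ (E.map (aOf a₀) e₁)) (fun i => Ψ (E.map (fun v => rOf a₀ v i) e₁))
        (tOf a₀ n (E.supp e₁)))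
      (mk (n + 1) (Ψ (E.map (aOf a₀) e₂)) (fun i => Ψ (E.map (fun v => rOf a₀ v i) e₂))
        (tOf a₀ (n + 1) (E.supp e₂))) := by
  classical
  obtain ⟨p₀, hp₀⟩ := E.supp_ne h
  have hs1 : E.supp e₁ = (fun p => p.1.1) '' E.supp h := by rw [he₁]; exact E.supp_map _ _
  have hs2 : E.supp e₂ = (fun p => p.1.2) '' E.supp h := by rw [he₂]; exact E.supp_map _ _
  have fA : (∀ p ∈ E.supp h, aOf a₀ p.1.1 = aOf a₀ p.1.2) →
      Ψ (E.map (aOf a₀) e₁) = Ψ (E.map (aOf a₀) e₂) := by
    intro hh
    rw [he₁, he₂, E.map_map, E.map_map]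
    congr 1
    exact E.map_congr _ _ _ hh
  have fR : (∀ p ∈ E.supp h, rOf a₀ p.1.1 = rOf a₀ p.1.2) →
      (fun i => Ψ (E.map (fun v => rOf a₀ v i) e₁)) =
        (fun i => Ψ (E.map (fun v => rOf a₀ v i) e₂)) := by
    intro hh
    funext i
    rw [he₁, he₂, E.map_map, E.map_map]
    congr 1
    exact E.map_congr _ _ _ fun p hpS => congrFun (hh p hpS) i
  have hR2 : (∀ p ∈ E.supp h, rOf a₀ p.1.2 ∈ R) →
      (fun i => Ψ (E.map (fun v => rOf a₀ v i) e₂)) ∈ R := by
    intro hh
    have h1 := hΨ (E.map (fun p => rOf a₀ p.1.2) h) (by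
      rw [E.supp_map]
      rintro _ ⟨p, hpS, rfl⟩
      exact hh p hpS)
    convert h1 using 1
    funext i
    rw [he₂, E.map_map, E.map_map]
  have hcase := fun (p) (hpS : p ∈ E.supp h) => edge_cases p.2 (hp p hpS)
  rcases Nat.eq_zero_or_pos n with hn0 | hn0
  · -- from the bottom
    subst hn0
    have hc : ∀ p ∈ E.supp h, ∃ a r l, p.1.1 = .bot a ∧ p.1.2 = .mid a r l .m ∧ r ∈ R ∧
        l.val = 0 := by
      intro p hpS
      have h0 := hn p hpS
      rcases hcase p hpS with hc | ⟨a, r, l, l', t, t', h1, -⟩ | ⟨a, r, l, h1, -⟩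
      · exact hc
      · rw [h1] at h0; simp [ht] at h0
      · rw [h1] at h0; simp [ht] at h0
    have hA := fA (by
      intro p hpS
      obtain ⟨a, r, l, h1, h2, -⟩ := hc p hpS
      rw [h1, h2]; rfl)
    have hR := hR2 (by
      intro p hpS
      obtain ⟨a, r, l, h1, h2, h3, -⟩ := hc p hpS
      rw [h2]; exact h3)
    have ht2 : tOf a₀ (0 + 1) (E.supp e₂) = .m := by
      rw [tOf, if_neg, if_neg]
      · rintro ⟨⟨v, hv, hv'⟩, -⟩
        rw [hs2] at hv
        obtain ⟨p, hpS, rfl⟩ := hv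
        obtain ⟨a, r, l, h1, h2, h3, -⟩ := hc p hpS
        simp only [h2, kOf] at hv'
        exact absurd hv' (by simp)
      · rintro ⟨v, hv, hv'⟩
        rw [hs2] at hv
        obtain ⟨p, hpS, rfl⟩ := hv
        obtain ⟨a, r, l, h1, h2, h3, -⟩ := hc p hpS
        simp only [h2, kOf] at hv'
        exact absurd hv' (by simp)
    rw [ht2, mk_zero, hA, mk_succ _ _ _ _ (by omega)]
    exact .start _ _ _ hR rfl
  · obtain ⟨m, rfl⟩ : ∃ m, n = m + 1 := ⟨n - 1, by omega⟩
    rcases Nat.lt_or_ge m k with hmk | hmk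
    · -- inner step
      have hc : ∀ p ∈ E.supp h, ∃ a r l l' t t', p.1.1 = .mid a r l t ∧ p.1.2 = .mid a r l' t' ∧
          r ∈ R ∧ l.val = m ∧ t ≠ .u ∧ t' ≠ .d ∧
          (t = .m → t' = .m → ∀ i : Fin k, i.val = m → a = r i) := by
        intro p hpS
        have h0 := hn p hpS
        rcases hcase p hpS with ⟨a, r, l, h1, -⟩ | ⟨a, r, l, l', t, t', h1, h2, h3, h4, h5, h6, h7⟩ |
          ⟨a, r, l, h1, h2, h3, h4⟩
        · rw [h1] at h0; simp [ht] at h0
        · rw [h1] at h0; simp only [ht] at h0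
          have hl : l.val = m := by omega
          rw [hl] at h7
          exact ⟨a, r, l, l', t, t', h1, h2, h3, hl, h5, h6, h7⟩
        · rw [h1] at h0; simp only [ht] at h0; omega
      have hA := fA (by
        intro p hpS
        obtain ⟨a, r, l, l', t, t', h1, h2, -⟩ := hc p hpS
        rw [h1, h2]; rfl)
      have hRR := fR (by
        intro p hpS
        obtain ⟨a, r, l, l', t, t', h1, h2, -⟩ := hc p hpS
        rw [h1, h2]; rfl)
      have hR := hR2 (by
        intro p hpS
        obtain ⟨a, r, l, l', t, t', h1, h2, h3, -⟩ := hc p hpS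
        rw [h2]; exact h3)
      have hnu : ¬ ∃ v ∈ E.supp e₁, kOf v = .u := by
        rintro ⟨v, hv, hv'⟩
        rw [hs1] at hv
        obtain ⟨p, hpS, rfl⟩ := hv
        obtain ⟨a, r, l, l', t, t', h1, h2, h3, h4, h5, -⟩ := hc p hpS
        simp only [h1, kOf] at hv'
        exact h5 hv'
      have hnd : ¬ ∃ v ∈ E.supp e₂, kOf v = .d := by
        rintro ⟨v, hv, hv'⟩
        rw [hs2] at hv
        obtain ⟨p, hpS, rfl⟩ := hv
        obtain ⟨a, r, l, l', t, t', h1, h2, h3, h4, h5, h6, -⟩ := hc p hpS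
        simp only [h2, kOf] at hv'
        exact h6 hv'
      rw [mk_succ _ _ _ _ (by omega), mk_succ _ _ _ _ (by omega), hA, hRR]
      by_cases hu : ∃ v ∈ E.supp e₂, kOf v = .u
      · have h2 : tOf a₀ (m + 1 + 1) (E.supp e₂) = .u := by rw [tOf, if_pos hu]
        rw [h2, tOf, if_neg hnu]
        split_ifs with h3
        · exact .du _ _ _ _ hR rfl
        · exact .mu _ _ _ _ hR rfl
      · have h2 : tOf a₀ (m + 1 + 1) (E.supp e₂) = .m := by
          rw [tOf, if_neg hu, if_neg]
          rintro ⟨h3, -⟩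
          exact hnd h3
        have hm2 : ∀ p ∈ E.supp h, kOf p.1.2 = .m := by
          intro p hpS
          have h4 : kOf p.1.2 ≠ .u := fun h5 => hu ⟨_, by rw [hs2]; exact ⟨p, hpS, rfl⟩, h5⟩
          have h5 : kOf p.1.2 ≠ .d := fun h5 => hnd ⟨_, by rw [hs2]; exact ⟨p, hpS, rfl⟩, h5⟩
          cases h6 : kOf p.1.2 with
          | m => rfl
          | u => exact absurd h6 h4
          | d => exact absurd h6 h5
        have hcond : ∀ v ∈ E.supp e₁, kOf v ≠ .d → ∀ i : Fin k, i.val + 1 = m + 1 →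
            aOf a₀ v = rOf a₀ v i := by
          intro v hv hvd i hi
          rw [hs1] at hv
          obtain ⟨p, hpS, rfl⟩ := hv
          obtain ⟨a, r, l, l', t, t', h1, h2, h3, h4, h5, h6, h7⟩ := hc p hpS
          have h8 := hm2 p hpS
          rw [h2] at h8
          simp only [h1, kOf, aOf, rOf] at hvd ⊢
          refine h7 ?_ h8 i (by omega)
          cases t with
          | m => rfl
          | u => exact absurd rfl h5
          | d => exact absurd rfl hvd
        rw [h2, tOf, if_neg hnu]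
        split_ifs with h3
        · exact .dm _ _ _ _ hR rfl
        · refine .mm _ _ _ _ hR rfl fun i hi => ?_
          have h4 : ∀ v ∈ E.supp e₁, kOf v ≠ .d := by
            intro v hv hvd
            exact h3 ⟨⟨v, hv, hvd⟩, hcond⟩
          rw [← hA]
          have h5 : Ψ (E.map (fun v => rOf a₀ v i) e₁) = Ψ (E.map (fun v => rOf a₀ v i) e₂) :=
            congrFun hRR i
          rw [← h5]
          congr 1
          refine E.map_congr _ _ _ fun v hv => ?_
          exact hcond v hv (h4 v hv) i (by rw [hi])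
    · -- to the top
      have hc : ∀ p ∈ E.supp h, ∃ a r l, p.1.1 = .mid a r l .m ∧ p.1.2 = .top r ∧
          r ∈ R ∧ l.val = k ∧ m = k := by
        intro p hpS
        have h0 := hn p hpS
        rcases hcase p hpS with ⟨a, r, l, h1, -⟩ | ⟨a, r, l, l', t, t', h1, h2, h3, h4, h5, h6, h7⟩ |
          ⟨a, r, l, h1, h2, h3, h4⟩
        · rw [h1] at h0; simp [ht] at h0
        · rw [h1] at h0; simp only [ht] at h0; omega
        · rw [h1] at h0; simp only [ht] at h0
          exact ⟨a, r, l, h1, h2, h3, h4, by omega⟩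
      obtain rfl : m = k := by
        obtain ⟨a, r, l, h1, h2, h3, h4, h5⟩ := hc p₀ hp₀
        exact h5
      have hRR := fR (by
        intro p hpS
        obtain ⟨a, r, l, h1, h2, -⟩ := hc p hpS
        rw [h1, h2]; rfl)
      have hR := hR2 (by
        intro p hpS
        obtain ⟨a, r, l, h1, h2, h3, -⟩ := hc p hpS
        rw [h2]; exact h3)
      have ht1 : tOf a₀ (m + 1) (E.supp e₁) = .m := by
        rw [tOf, if_neg, if_neg]
        · rintro ⟨⟨v, hv, hv'⟩, -⟩
          rw [hs1] at hv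
          obtain ⟨p, hpS, rfl⟩ := hv
          obtain ⟨a, r, l, h1, h2, h3, -⟩ := hc p hpS
          simp only [h1, kOf] at hv'
          exact absurd hv' (by simp)
        · rintro ⟨v, hv, hv'⟩
          rw [hs1] at hv
          obtain ⟨p, hpS, rfl⟩ := hv
          obtain ⟨a, r, l, h1, h2, h3, -⟩ := hc p hpS
          simp only [h1, kOf] at hv'
          exact absurd hv' (by simp)
      rw [ht1, mk_succ _ _ _ _ (by omega), mk_last, hRR]
      exact .last _ _ _ hR rfl

/-- A map on the elements which respects the relation extends to the encoding. -/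
theorem encode (E : SF) [Finite B] (R : Set (Fin k → B)) (a₀ : B) (Ψ : E.obj B → B)
    (hΨ : ∀ h : E.obj (Fin k → B), E.supp h ⊆ R → (fun i => Ψ (E.map (fun r => r i) h)) ∈ R)
    [Finite (Vert B k)]
    (h : E.obj {p : Vert B k × Vert B k // Edge R p.1 p.2}) :
    Edge R (phi E a₀ Ψ (E.map (fun p => p.1.1) h)) (phi E a₀ Ψ (E.map (fun p => p.1.2) h)) := by
  classical
  obtain ⟨p₀, hp₀⟩ := E.supp_ne h
  have hs1 : E.supp (E.map (fun p => p.1.1) h) = (fun p => p.1.1) '' E.supp h := E.supp_map _ _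
  have hs2 : E.supp (E.map (fun p => p.1.2) h) = (fun p => p.1.2) '' E.supp h := E.supp_map _ _
  have hht : ht '' E.supp (E.map (fun p => p.1.2) h) =
      (· + 1) '' (ht '' E.supp (E.map (fun p => p.1.1) h)) := by
    rw [hs1, hs2, Set.image_image, Set.image_image, Set.image_image]
    exact Set.image_congr fun p _ => p.2.ht_eq
  have hne1 : (ht '' E.supp (E.map (fun p => p.1.1) h)).Nonempty :=
    (E.supp_ne _).image _
  by_cases hp : ∃ l, Vert.pth l ∈ E.supp (E.map (fun p => p.1.1) h)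
  · -- some edge of the directed path
    have key : {n | ∃ l : Fin (k + 2), Vert.pth l ∈ E.supp (E.map (fun p => p.1.2) h) ∧ l.val = n} =
        (· + 1) '' {n | ∃ l : Fin (k + 2), Vert.pth l ∈ E.supp (E.map (fun p => p.1.1) h) ∧
          l.val = n} := by
      ext n
      constructor
      · rintro ⟨l, hl, rfl⟩
        rw [hs2] at hl
        obtain ⟨⟨⟨v, w⟩, hvw⟩, hpS, hw⟩ := hl
        simp only at hw hvw
        subst hw
        cases hvw with
        | path l₁ _ hl₁ =>
          refine ⟨l₁.val, ⟨l₁, ?_, rfl⟩, hl₁.symm⟩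
          rw [hs1]
          exact ⟨_, hpS, rfl⟩
      · rintro ⟨_, ⟨l, hl, rfl⟩, rfl⟩
        rw [hs1] at hl
        obtain ⟨⟨⟨v, w⟩, hvw⟩, hpS, hv⟩ := hl
        simp only at hv hvw
        subst hv
        cases hvw with
        | path _ l₁ hl₁ =>
          refine ⟨l₁, ?_, hl₁⟩
          rw [hs2]
          exact ⟨_, hpS, rfl⟩
    have hne : {n | ∃ l : Fin (k + 2), Vert.pth l ∈ E.supp (E.map (fun p => p.1.1) h) ∧
          l.val = n}.Nonempty := by
      obtain ⟨l, hl⟩ := hp
      exact ⟨l.val, l, hl, rfl⟩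
    have hp2 : ∃ l, Vert.pth l ∈ E.supp (E.map (fun p => p.1.2) h) := by
      have := hne.image (· + 1)
      rw [← key] at this
      obtain ⟨n, l, hl, -⟩ := this
      exact ⟨l, hl⟩
    rw [phi, phi, if_pos hp, if_pos hp2, key, sInf_image_succ hne]
    apply edge_pthN
    have hmem : sInf {n | ∃ l : Fin (k + 2), Vert.pth l ∈ E.supp (E.map (fun p => p.1.1) h) ∧
        l.val = n} + 1 ∈ {n | ∃ l : Fin (k + 2), Vert.pth l ∈ E.supp (E.map (fun p => p.1.2) h) ∧
        l.val = n} := by
      rw [key, ← sInf_image_succ hne]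
      exact Nat.sInf_mem (hne.image _)
    obtain ⟨l, -, hl⟩ := hmem
    omega
  · have hp' : ∀ p ∈ E.supp h, ∀ l, p.1.1 ≠ Vert.pth l := by
      intro p hpS l hl
      apply hp
      refine ⟨l, ?_⟩
      rw [hs1]
      exact ⟨p, hpS, hl⟩
    have hp2 : ¬ ∃ l, Vert.pth l ∈ E.supp (E.map (fun p => p.1.2) h) := by
      rintro ⟨l, hl⟩
      rw [hs2] at hl
      obtain ⟨⟨⟨v, w⟩, hvw⟩, hpS, hw⟩ := hl
      simp only at hw hvw
      subst hw
      have := hp' _ hpS
      cases hvw with
      | path l₁ _ hl₁ => exact this l₁ rfl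
    by_cases hlev : ∃ n, ∀ v ∈ E.supp (E.map (fun p => p.1.1) h), ht v = n
    · obtain ⟨n, hn⟩ := hlev
      have hn1 : ∀ p ∈ E.supp h, ht p.1.1 = n := by
        intro p hpS
        apply hn
        rw [hs1]
        exact ⟨p, hpS, rfl⟩
      have hn2 : ∀ v ∈ E.supp (E.map (fun p => p.1.2) h), ht v = n + 1 := by
        intro v hv
        rw [hs2] at hv
        obtain ⟨p, hpS, rfl⟩ := hv
        rw [p.2.ht_eq, hn1 p hpS]
      have hi1 : sInf (ht '' E.supp (E.map (fun p => p.1.1) h)) = n := by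
        obtain ⟨v, hv, h'⟩ := Nat.sInf_mem hne1
        rw [← h', hn v hv]
      have hi2 : sInf (ht '' E.supp (E.map (fun p => p.1.2) h)) = n + 1 := by
        rw [hht, sInf_image_succ hne1, hi1]
      rw [phi, phi, if_neg hp, if_neg hp2, if_pos ⟨n, hn⟩, if_pos ⟨n + 1, hn2⟩, hi1, hi2]
      exact encode_level E R a₀ Ψ hΨ h n hp' hn1 _ _ rfl rfl
    · have hlev2 : ¬ ∃ n, ∀ v ∈ E.supp (E.map (fun p => p.1.2) h), ht v = n := by
        rintro ⟨n, hn⟩
        apply hlev
        refine ⟨n - 1, fun v hv => ?_⟩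
        rw [hs1] at hv
        obtain ⟨p, hpS, rfl⟩ := hv
        have h1 := hn p.1.2 (by rw [hs2]; exact ⟨p, hpS, rfl⟩)
        have h2 := p.2.ht_eq
        simp only
        omega
      rw [phi, phi, if_neg hp, if_neg hp2, if_neg hlev, if_neg hlev2, hht, sInf_image_succ hne1]
      apply edge_pthN
      have hbound : ∀ v ∈ E.supp (E.map (fun p => p.1.1) h), ht v ≤ k + 1 := by
        intro v hv
        rw [hs1] at hv
        obtain ⟨p, hpS, rfl⟩ := hv
        have h2 := p.2.ht_eq
        have h3 : ∀ w : Vert B k, ht w ≤ k + 2 := by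
          intro w
          cases w with
          | bot a => simp [ht]
          | top r => simp [ht]
          | mid a r l t => simp only [ht]; omega
          | pth l => simp only [ht]; omega
        have h4 := h3 p.1.2
        simp only
        omega
      by_contra hcon
      apply hlev
      refine ⟨k + 1, fun v hv => le_antisymm (hbound v hv) ?_⟩
      have : sInf (ht '' E.supp (E.map (fun p => p.1.1) h)) ≤ ht v := Nat.sInf_le ⟨v, hv, rfl⟩
      omega

end Pool.Agent.H84.Chain
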