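import Pool.Agent.H84.Chain.Steps

/-!
# Pp-constructions of digraphs on `Fin n`
-/

set_option autoImplicit false

namespace Pool.Agent.H84.Chain

/-- `B` pp-constructs `A`. -/
def PPC (kB : ℕ) (B : Digraph (Fin kB)) (kA : ℕ) (A : Digraph (Fin kA)) : Prop :=
  ∃ (n m : ℕ)
    (Es Qs : Set (((Fin 2 × Fin n) ⊕ Fin m) × ((Fin 2 × Fin n) ⊕ Fin m)))
    (E : (Fin n → Fin kB) → (Fin n → Fin kB) → Prop),
    0 < n ∧
    (∀ x y : Fin n → Fin kB, E x y ↔ ∃ s : Fin m → Fin kB,
        (∀ p ∈ Es,
          B.Adj (Sum.elim (fun q : Fin 2 × Fin n => (![x, y] q.1) q.2) s p.1)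
                (Sum.elim (fun q : Fin 2 × Fin n => (![x, y] q.1) q.2) s p.2)) ∧
        (∀ p ∈ Qs,
          Sum.elim (fun q : Fin 2 × Fin n => (![x, y] q.1) q.2) s p.1 =
            Sum.elim (fun q : Fin 2 × Fin n => (![x, y] q.1) q.2) s p.2)) ∧
    (∃ f : Fin kA → (Fin n → Fin kB), ∀ a b : Fin kA, A.Adj a b → E (f a) (f b)) ∧
    (∃ g : (Fin n → Fin kB) → Fin kA,
        ∀ x y : Fin n → Fin kB, E x y → A.Adj (g x) (g y))

/-- Symmetric polymorphisms are inherited by pp-constructed digraphs. -/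
theorem PPC.sym {kB kA : ℕ} {B : Digraph (Fin kB)} {A : Digraph (Fin kA)} (h : PPC kB B kA A)
    {N G : Type} (act : G → N → N) (s : (N → Fin kB) → Fin kB) (hs : Poly B.Adj s)
    (hsym : ∀ (x : N → Fin kB) (q : G), s (fun n => x (act q n)) = s x) :
    ∃ s' : (N → Fin kA) → Fin kA, Poly A.Adj s' ∧
      ∀ (x : N → Fin kA) (q : G), s' (fun n => x (act q n)) = s' x := by
  obtain ⟨n, m, Es, Qs, E, -, hE, ⟨f, hf⟩, ⟨g, hg⟩⟩ := h
  refine ⟨fun x => g fun i => s fun j => f (x j) i, ?_, ?_⟩
  · intro u v huv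
    apply hg
    rw [hE]
    have h1 : ∀ j, E (f (u j)) (f (v j)) := fun j => hf _ _ (huv j)
    choose w hw using fun j => (hE _ _).1 (h1 j)
    refine ⟨fun i => s fun j => w j i, ?_, ?_⟩
    · have key : ∀ p : (Fin 2 × Fin n) ⊕ Fin m,
          Sum.elim (fun q : Fin 2 × Fin n => (![fun i => s fun j => f (u j) i,
            fun i => s fun j => f (v j) i] q.1) q.2) (fun i => s fun j => w j i) p =
          s fun j => Sum.elim (fun q : Fin 2 × Fin n => (![f (u j), f (v j)] q.1) q.2) (w j) p := by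
        rintro (⟨i, j⟩ | i)
        · fin_cases i <;> rfl
        · rfl
      intro p hp
      rw [key, key]
      exact hs _ _ fun j => (hw j).1 p hp
    · have key : ∀ p : (Fin 2 × Fin n) ⊕ Fin m,
          Sum.elim (fun q : Fin 2 × Fin n => (![fun i => s fun j => f (u j) i,
            fun i => s fun j => f (v j) i] q.1) q.2) (fun i => s fun j => w j i) p =
          s fun j => Sum.elim (fun q : Fin 2 × Fin n => (![f (u j), f (v j)] q.1) q.2) (w j) p := by
        rintro (⟨i, j⟩ | i)
        · fin_cases i <;> rfl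
        · rfl
      intro p hp
      rw [key, key]
      congr 1
      funext j
      exact (hw j).2 p hp
  · intro x q
    exact congrArg g (funext fun i => hsym (fun j => f (x j) i) q)

/-- A homomorphism from the free structure gives a pp-construction. -/
theorem ppc_of_free {kB kA : ℕ} (hkB : 0 < kB) (B : Digraph (Fin kB)) (A : Digraph (Fin kA))
    (Φ : ((Fin kA → Fin kB) → Fin kB) → Fin kA)
    (hΦ : ∀ h : ({p : Fin kA × Fin kA // A.Adj p.1 p.2} → Fin kB) → Fin kB, Poly B.Adj h →
      A.Adj (Φ fun y => h fun p => y p.1.1) (Φ fun y => h fun p => y p.1.2)) :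
    PPC kB B kA A := by
  classical
  have ⟨e1⟩ : Nonempty ((Fin kA → Fin kB) ≃ Fin (Nat.card (Fin kA → Fin kB))) :=
    ⟨Finite.equivFin _⟩
  have ⟨e2⟩ : Nonempty (({p : Fin kA × Fin kA // A.Adj p.1 p.2} → Fin kB) ≃
      Fin (Nat.card ({p : Fin kA × Fin kA // A.Adj p.1 p.2} → Fin kB))) :=
    ⟨Finite.equivFin _⟩
  refine ⟨Nat.card (Fin kA → Fin kB), Nat.card ({p : Fin kA × Fin kA // A.Adj p.1 p.2} → Fin kB),
    {z | ∃ u v : {p : Fin kA × Fin kA // A.Adj p.1 p.2} → Fin kB, (∀ p, B.Adj (u p) (v p)) ∧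
      z = (.inr (e2 u), .inr (e2 v))},
    {z | ∃ y : Fin kA → Fin kB, z = (.inl (0, e1 y), .inr (e2 fun p => y p.1.1)) ∨
      z = (.inl (1, e1 y), .inr (e2 fun p => y p.1.2))},
    fun x y => ∃ h : ({p : Fin kA × Fin kA // A.Adj p.1 p.2} → Fin kB) → Fin kB, Poly B.Adj h ∧
      (∀ z, x (e1 z) = h fun p => z p.1.1) ∧ (∀ z, y (e1 z) = h fun p => z p.1.2), ?_, ?_, ?_, ?_⟩
  · have : Nonempty (Fin kB) := ⟨⟨0, hkB⟩⟩
    exact Nat.card_pos
  · intro x y
    constructor
    · rintro ⟨h, hh, hx, hy⟩
      refine ⟨fun i => h (e2.symm i), ?_, ?_⟩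
      · rintro _ ⟨u, v, huv, rfl⟩
        simp only [Sum.elim_inr, Equiv.symm_apply_apply]
        exact hh u v huv
      · rintro _ ⟨z, rfl | rfl⟩
        · simp only [Sum.elim_inl, Sum.elim_inr, Equiv.symm_apply_apply, Matrix.cons_val_zero]
          exact hx z
        · simp only [Sum.elim_inl, Sum.elim_inr, Equiv.symm_apply_apply, Matrix.cons_val_one,
            Matrix.cons_val_zero]
          exact hy z
    · rintro ⟨s, hs1, hs2⟩
      refine ⟨fun u => s (e2 u), ?_, ?_, ?_⟩
      · intro u v huv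
        have := hs1 _ ⟨u, v, huv, rfl⟩
        simpa only [Sum.elim_inr] using this
      · intro z
        have := hs2 _ ⟨z, Or.inl rfl⟩
        simpa only [Sum.elim_inl, Sum.elim_inr, Matrix.cons_val_zero] using this
      · intro z
        have := hs2 _ ⟨z, Or.inr rfl⟩
        simpa only [Sum.elim_inl, Sum.elim_inr, Matrix.cons_val_one, Matrix.cons_val_zero]
          using this
  · refine ⟨fun a i => e1.symm i a, ?_⟩
    intro a b hab
    refine ⟨fun u => u ⟨(a, b), hab⟩, fun u v huv => huv _, ?_, ?_⟩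
    · intro z
      simp only [Equiv.symm_apply_apply]
    · intro z
      simp only [Equiv.symm_apply_apply]
  · refine ⟨fun x => Φ fun z => x (e1 z), ?_⟩
    rintro x y ⟨h, hh, hx, hy⟩
    have h1 := hΦ h hh
    have h2 : (fun z => x (e1 z)) = fun z => h fun p => z p.1.1 := funext hx
    have h3 : (fun z => y (e1 z)) = fun z => h fun p => z p.1.2 := funext hy
    rw [← h2, ← h3] at h1
    exact h1

/-- The digraph on `Fin n` given by a relation on a finite type. -/
noncomputable def toDigraph {V : Type} [Finite V] (A : V → V → Prop) :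
    Digraph (Fin (Nat.card V)) where
  Adj := fun a b => A ((Finite.equivFin V).symm a) ((Finite.equivFin V).symm b)

theorem toDigraph_adj {V : Type} [Finite V] (A : V → V → Prop) (a b : Fin (Nat.card V)) :
    (toDigraph A).Adj a b ↔ A ((Finite.equivFin V).symm a) ((Finite.equivFin V).symm b) :=
  Iff.rfl

/-- Pp-constructions between digraphs on finite types. -/
theorem ppc_toDigraph {V W : Type} [Finite V] [Finite W] [Nonempty V] (A : V → V → Prop)
    (C : W → W → Prop) (Φ : ((W → V) → V) → W)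
    (hΦ : ∀ h : ({p : W × W // C p.1 p.2} → V) → V, Poly A h →
      C (Φ fun y => h fun p => y p.1.1) (Φ fun y => h fun p => y p.1.2)) :
    PPC (Nat.card V) (toDigraph A) (Nat.card W) (toDigraph C) := by
  refine ppc_of_free Nat.card_pos _ _
    (fun g => Finite.equivFin W (Φ fun y => (Finite.equivFin V).symm
      (g fun a => Finite.equivFin V (y ((Finite.equivFin W).symm a))))) ?_
  intro h hh
  rw [toDigraph_adj]
  simp only [Equiv.symm_apply_apply]
  have h1 := hΦ (fun y => (Finite.equivFin V).symm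
    (h fun p => Finite.equivFin V (y ⟨((Finite.equivFin W).symm p.1.1,
      (Finite.equivFin W).symm p.1.2), p.2⟩))) ?_
  · exact h1
  · intro u v huv
    have h2 := hh (fun p => Finite.equivFin V (u ⟨((Finite.equivFin W).symm p.1.1,
      (Finite.equivFin W).symm p.1.2), p.2⟩)) (fun p => Finite.equivFin V
        (v ⟨((Finite.equivFin W).symm p.1.1, (Finite.equivFin W).symm p.1.2), p.2⟩)) (by
      intro p
      rw [toDigraph_adj]
      simp only [Equiv.symm_apply_apply]
      exact huv _)
    exact h2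

/-- A symmetric polymorphism of a digraph on a finite type is one of its copy. -/
theorem sym_toDigraph {V : Type} [Finite V] (A : V → V → Prop) {N G : Type} (act : G → N → N)
    (s : (N → V) → V) (hs : Poly A s)
    (hsym : ∀ (x : N → V) (q : G), s (fun n => x (act q n)) = s x) :
    ∃ s' : (N → Fin (Nat.card V)) → Fin (Nat.card V), Poly (toDigraph A).Adj s' ∧
      ∀ (x : N → Fin (Nat.card V)) (q : G), s' (fun n => x (act q n)) = s' x := by
  refine ⟨fun x => Finite.equivFin V (s fun n => (Finite.equivFin V).symm (x n)), ?_, ?_⟩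
  · intro u v huv
    rw [toDigraph_adj]
    simp only [Equiv.symm_apply_apply]
    exact hs _ _ huv
  · intro x q
    exact congrArg (Finite.equivFin V) (hsym (fun n => (Finite.equivFin V).symm (x n)) q)

/-- And conversely. -/
theorem sym_of_toDigraph {V : Type} [Finite V] (A : V → V → Prop) {N G : Type} (act : G → N → N)
    (s : (N → Fin (Nat.card V)) → Fin (Nat.card V)) (hs : Poly (toDigraph A).Adj s)
    (hsym : ∀ (x : N → Fin (Nat.card V)) (q : G), s (fun n => x (act q n)) = s x) :
    ∃ s' : (N → V) → V, Poly A s' ∧ ∀ (x : N → V) (q : G), s' (fun n => x (act q n)) = s' x := by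
  refine ⟨fun x => (Finite.equivFin V).symm (s fun n => Finite.equivFin V (x n)), ?_, ?_⟩
  · intro u v huv
    have h := hs (fun n => Finite.equivFin V (u n)) (fun n => Finite.equivFin V (v n)) (by
      intro n
      rw [toDigraph_adj]
      simp only [Equiv.symm_apply_apply]
      exact huv n)
    exact h
  · intro x q
    exact congrArg (Finite.equivFin V).symm (hsym (fun n => Finite.equivFin V (x n)) q)

end Pool.Agent.H84.Chain
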