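import Pool.Agent.H84.Chain.Struct

/-!
# The maps between the encodings for two simple groups, and the symmetric operations
-/

set_option autoImplicit false

open scoped Pointwise

namespace Pool.Agent.H84.Chain

/-- Elements of `E2 Q` over the power set of a simple group `P` which are fixed by `P` lie over
fixed points. -/
theorem fix_E2 {Q P : Type} [Group Q] [Group P] [Nontrivial Q] [Finite P] [IsSimpleGroup P]
    (ι : Q →* P) (hι : ∃ q, ι q ≠ 1) (x : (E2 Q).obj (Set P))
    (hx : ∀ p : P, (E2 Q).map (fun s => p • s) x = x) : ∀ s ∈ (E2 Q).supp x, Fx s := by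
  let act : MulAction Q (Set P) := MulAction.compHom (Set P) ι
  obtain ⟨η, hη, hη'⟩ := @exists_sel Q (Set P) _ act
  have hη1 : ∀ (q : Q) (s : Set P), η (ι q • s) = q • η s := hη
  have hη1' : ∀ s : Set P, Fx (η s) → ∀ q : Q, ι q • s = s := hη'
  have hfix : Fx (x.1 η) := by
    apply fx_of_smul
    intro q
    rw [← x.2.equiv]
    have h1 : (fun s => q • η s) = fun s => η (ι q • s) := by
      funext s
      rw [hη1]
    rw [h1]
    have h2 := congrArg (fun z => z.1 η) (hx (ι q))
    exact h2
  rw [x.2.fx_iff] at hfix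
  have hinv : ∀ (p : P) (s : Set P), s ∈ (E2 Q).supp x → p • s ∈ (E2 Q).supp x := by
    intro p s hs
    rw [← hx p, (E2 Q).supp_map]
    exact ⟨s, hs, rfl⟩
  intro s hs
  -- the stabilizer of `s` contains all conjugates of the image of `Q`
  have h1 : ∀ (p : P) (q : Q), (p⁻¹ * ι q * p) • s = s := by
    intro p q
    have h2 := hη1' (p • s) (hfix _ (hinv p s hs)) q
    rw [mul_smul, mul_smul, h2, inv_smul_smul]
  obtain ⟨q, hq⟩ := hι
  have h2 : Subgroup.normalClosure {ι q} ≤ MulAction.stabilizer P s := by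
    rw [Subgroup.normalClosure, Subgroup.closure_le]
    intro z hz
    rw [Group.conjugatesOfSet, Set.mem_iUnion₂] at hz
    obtain ⟨y, hy, hz⟩ := hz
    rw [Set.mem_singleton_iff] at hy
    subst hy
    have hz' : IsConj (ι q) z := hz
    rw [isConj_iff] at hz'
    obtain ⟨c, rfl⟩ := hz'
    have h3 := h1 c⁻¹ q
    rw [inv_inv] at h3
    exact h3
  have h3 : Subgroup.normalClosure {ι q} = ⊤ := by
    rcases (Subgroup.normalClosure_normal (s := {ι q})).eq_bot_or_eq_top with h | h
    · exfalso
      apply hq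
      have : ι q ∈ Subgroup.normalClosure {ι q} := Subgroup.subset_normalClosure rfl
      rw [h] at this
      exact this
    · exact h
  rw [h3, top_le_iff] at h2
  apply fx_of_smul
  intro p
  have : p ∈ MulAction.stabilizer P s := by rw [h2]; exact Subgroup.mem_top p
  exact this

/-- The setoid on the tuples indexed by `N` whose classes are the orbits of `G`. -/
def tupSetoid (G N S : Type) [Group G] [MulAction G N] : Setoid (N → S) where
  r := fun x y => ∃ g : G, ∀ n, y n = x (g • n)
  iseqv :=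
    { refl := fun x => ⟨1, fun n => by rw [one_smul]⟩
      symm := by
        rintro x y ⟨g, hg⟩
        refine ⟨g⁻¹, fun n => ?_⟩
        rw [hg, smul_inv_smul]
      trans := by
        rintro x y z ⟨g, hg⟩ ⟨g', hg'⟩
        refine ⟨g * g', fun n => ?_⟩
        rw [hg', hg, mul_smul] }

/-- The functor of the tuples up to the action of `G` on the index set. -/
def E3 (G N : Type) [Group G] [MulAction G N] [Nonempty N] : SF where
  obj := fun S => Quotient (tupSetoid G N S)
  map := fun {S T} φ => Quotient.map (sa := tupSetoid G N S) (sb := tupSetoid G N T)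
    (fun x n => φ (x n)) (by
      rintro x y ⟨g, hg⟩
      exact ⟨g, fun n => by
        change φ (y n) = φ (x (g • n))
        rw [hg]⟩)
  supp := fun {S} => Quotient.lift (s := tupSetoid G N S) (fun x => Set.range x) (by
    rintro x y ⟨g, hg⟩
    ext s
    constructor
    · rintro ⟨n, rfl⟩
      exact ⟨g⁻¹ • n, by rw [hg, smul_inv_smul]⟩
    · rintro ⟨n, rfl⟩
      exact ⟨g • n, by rw [hg]⟩)
  map_id := by
    intro S e
    induction e using Quotient.inductionOn with
    | h x => rfl
  map_map := by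
    intro S T U φ ψ e
    induction e using Quotient.inductionOn with
    | h x => rfl
  supp_ne := by
    intro S _ e
    induction e using Quotient.inductionOn with
    | h x => exact Set.range_nonempty x
  supp_map := by
    intro S T _ _ φ e
    induction e using Quotient.inductionOn with
    | h x => exact (Set.range_comp φ x)
  map_congr := by
    intro S T _ φ ψ e h
    induction e using Quotient.inductionOn with
    | h x =>
      change Quotient.mk _ (fun n => φ (x n)) = Quotient.mk _ (fun n => ψ (x n))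
      congr 1
      funext n
      exact h _ ⟨n, rfl⟩

/-- Elements of `E3 G N` over the power set of a simple group `P` of larger order which are fixed
by `P` lie over fixed points. -/
theorem fix_E3 {G N P : Type} [Group G] [MulAction G N] [Nonempty N] [Group P]
    [Finite G] [Finite P] [IsSimpleGroup P] (hcard : Nat.card G < Nat.card P)
    (x : (E3 G N).obj (Set P))
    (hx : ∀ p : P, (E3 G N).map (fun s => p • s) x = x) : ∀ s ∈ (E3 G N).supp x, Fx s := by
  induction x using Quotient.inductionOn with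
  | h x =>
    have hx' : ∀ p : P, ∃ g : G, ∀ n, p • x n = x (g • n) := by
      intro p
      have h := Quotient.exact (s := tupSetoid G N (Set P)) (hx p)
      obtain ⟨g, hg⟩ := h
      simp only at hg
      refine ⟨g⁻¹, fun n => ?_⟩
      rw [hg (g⁻¹ • n), smul_inv_smul]
    let H : Subgroup P :=
      { carrier := {p | ∀ n, p • x n = x n}
        mul_mem' := fun {a b} ha hb n => by rw [mul_smul, hb n, ha n]
        one_mem' := fun n => by rw [one_smul]
        inv_mem' := fun {a} ha n => by
          rw [inv_smul_eq_iff]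
          exact (ha n).symm }
    have hH : ∀ p, p ∈ H ↔ ∀ n, p • x n = x n := fun p => Iff.rfl
    have hN : H.Normal := by
      constructor
      intro p hp q
      rw [hH] at hp ⊢
      intro n
      obtain ⟨g, hg⟩ := hx' q⁻¹
      rw [mul_smul, mul_smul, hg, hp, ← hg, smul_inv_smul]
    have hne : H ≠ ⊥ := by
      intro hbot
      choose g hg using hx'
      have hinj : Function.Injective g := by
        intro p q hpq
        have h1 : q⁻¹ * p ∈ H := by
          rw [hH]
          intro n
          rw [mul_smul, hg p, hpq, ← hg q, inv_smul_smul]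
        rw [hbot, Subgroup.mem_bot] at h1
        exact (inv_mul_eq_one.1 h1).symm
      have := Nat.card_le_card_of_injective g hinj
      omega
    have htop : H = ⊤ := (hN.eq_bot_or_eq_top).resolve_left hne
    rintro _ ⟨n, rfl⟩
    apply fx_of_smul
    intro p
    have : p ∈ H := by rw [htop]; exact Subgroup.mem_top p
    exact this n

/-- Polymorphisms of a binary relation. -/
def Poly {V : Type} (A : V → V → Prop) {ι : Type} (g : (ι → V) → V) : Prop :=
  ∀ u v : ι → V, (∀ j, A (u j) (v j)) → A (g u) (g v)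

/-- The structure on the power set of `Q` is nonempty. -/
theorem exists_mem_RX {Q : Type} [Group Q] [Nontrivial Q] {k : ℕ} (e : Fin k ≃ Fin 4 ⊕ Q)
    (a b c u x : Set Q) (hw : Fx c → a = b) (hu : ¬ Fx u) :
    ∃ r ∈ RX e, r (e.symm (.inl 0)) = a ∧ r (e.symm (.inl 1)) = b ∧ r (e.symm (.inl 2)) = c ∧
      r (e.symm (.inl 3)) = u ∧ ∀ q, r (e.symm (.inr q)) = q • x := by
  refine ⟨fun i => Sum.elim ![a, b, c, u] (fun q => q • x) (e i), ?_, ?_, ?_, ?_, ?_, ?_⟩
  · rw [mem_RX]
    simp only [Equiv.apply_symm_apply, Sum.elim_inl, Sum.elim_inr, one_smul]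
    exact ⟨hw, hu, fun q => trivial⟩
  all_goals simp only [Equiv.apply_symm_apply, Sum.elim_inl, Sum.elim_inr]
  · rfl
  · rfl
  · rfl
  · rfl
  · exact fun q => trivial

/-- The restriction of a polymorphism of the encoding. -/
theorem exists_res {Q : Type} [Group Q] [Nontrivial Q] {k : ℕ} (e : Fin k ≃ Fin 4 ⊕ Q)
    {ι : Type} (g : (ι → Vert (Set Q) k) → Vert (Set Q) k) (hg : Poly (Edge (RX e)) g) :
    ∃ f : (ι → Set Q) → Set Q, IsPol f ∧ ∀ y : ι → Set Q, g (fun j => .bot (y j)) = .bot (f y) := by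
  obtain ⟨r₀, hr₀, -⟩ := exists_mem_RX e ∅ ∅ ∅ {1} ∅ (fun _ => rfl) not_fx_one
  have h0 : ∀ y : ι → Set Q, ∃ a, g (fun j => .bot (y j)) = .bot a := by
    intro y
    obtain ⟨a, r, -, h, -⟩ := res_aux (RX e) g hg y (fun _ => r₀) (fun _ => hr₀)
    exact ⟨a, h⟩
  choose f hf using h0
  have hpres : ∀ ρ : ι → (Fin k → Set Q), (∀ j, ρ j ∈ RX e) → (fun i => f (fun j => ρ j i)) ∈ RX e := by
    intro ρ hρ
    obtain ⟨-, r, hr, -, htop, -⟩ := res_aux (RX e) g hg (fun _ => ∅) ρ hρ
    have : (fun i => f (fun j => ρ j i)) = r := by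
      funext i
      obtain ⟨a, r', hr', hbot, htop', hi⟩ := res_aux (RX e) g hg (fun j => ρ j i) ρ hρ
      rw [htop'] at htop
      injection htop with htop
      rw [hf] at hbot
      injection hbot with hbot
      rw [hbot, ← htop]
      exact hi i fun _ => rfl
    rw [this]
    exact hr
  refine ⟨f, ⟨?_, ?_, ?_⟩, hf⟩
  · intro q x
    choose ρ hρ h0 h1 h2 h3 h4 using fun j => exists_mem_RX e ∅ ∅ ∅ {1} (x j) (fun _ => rfl)
      not_fx_one
    have h := hpres ρ hρ
    rw [mem_RX] at h
    have h5 := h.2.2 q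
    simp only [h4, one_smul] at h5
    exact h5
  · intro a b c hc hfc
    choose ρ hρ h0 h1 h2 h3 h4 using fun j => exists_mem_RX e (a j) (b j) (c j) {1} ∅ (hc j)
      not_fx_one
    have h := hpres ρ hρ
    rw [mem_RX] at h
    have h5 := h.1
    simp only [h0, h1, h2] at h5
    exact h5 hfc
  · intro c hc
    choose ρ hρ h0 h1 h2 h3 h4 using fun j => exists_mem_RX e ∅ ∅ ∅ (c j) ∅ (fun _ => rfl) (hc j)
    have h := hpres ρ hρ
    rw [mem_RX] at h
    have h5 := h.2.1
    simp only [h3] at h5
    exact h5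

instance finite_kind : Finite Kind := by
  refine Finite.of_surjective (fun i : Fin 3 => match i with
    | 0 => Kind.m
    | 1 => Kind.u
    | 2 => Kind.d) ?_
  rintro (_ | _ | _)
  · exact ⟨0, rfl⟩
  · exact ⟨1, rfl⟩
  · exact ⟨2, rfl⟩

instance finite_vert {B : Type} [Finite B] {k : ℕ} : Finite (Vert B k) := by
  refine Finite.of_surjective (α := B ⊕ (Fin k → B) ⊕ (B × (Fin k → B) × Fin (k + 1) × Kind) ⊕
    Fin (k + 2)) (fun z => match z with
    | .inl a => .bot a
    | .inr (.inl r) => .top r
    | .inr (.inr (.inl (a, r, l, t))) => .mid a r l t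
    | .inr (.inr (.inr l)) => .pth l) ?_
  rintro (a | r | ⟨a, r, l, t⟩ | l)
  · exact ⟨.inl a, rfl⟩
  · exact ⟨.inr (.inl r), rfl⟩
  · exact ⟨.inr (.inr (.inl (a, r, l, t))), rfl⟩
  · exact ⟨.inr (.inr (.inr l)), rfl⟩

/-- The free structure of the encoding for `Q` over the encoding for a simple group `P` which
has a nontrivial homomorphism from `Q` maps to the latter. -/
theorem up_step {Q P : Type} [Group Q] [Group P] [Nontrivial Q] [Finite P] [IsSimpleGroup P]
    (ι : Q →* P) (hι : ∃ q, ι q ≠ 1) {k l : ℕ} (e : Fin k ≃ Fin 4 ⊕ Q) (e' : Fin l ≃ Fin 4 ⊕ P) :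
    ∃ Φ : ((Vert (Set P) l → Vert (Set Q) k) → Vert (Set Q) k) → Vert (Set P) l,
      ∀ h : ({p : Vert (Set P) l × Vert (Set P) l // Edge (RX e') p.1 p.2} → Vert (Set Q) k) →
          Vert (Set Q) k, Poly (Edge (RX e)) h →
        Edge (RX e') (Φ fun y => h fun p => y p.1.1) (Φ fun y => h fun p => y p.1.2) := by
  classical
  obtain ⟨Φ, hΦ⟩ := transfer e' (E2 Q) (fix_E2 ι hι)
  have hex : ∀ {S : Type} (g : (S → Vert (Set Q) k) → Vert (Set Q) k), Poly (Edge (RX e)) g →
      ∃ f : (E2 Q).obj S, ∀ y : S → Set Q, g (fun j => .bot (y j)) = .bot (f.1 y) := by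
    intro S g hg
    obtain ⟨f, hf, hf'⟩ := exists_res e g hg
    exact ⟨⟨f, hf⟩, hf'⟩
  refine ⟨fun g => if hg : Poly (Edge (RX e)) g then Φ (hex g hg).choose
    else .bot ∅, ?_⟩
  intro h hh
  have h1 : Poly (Edge (RX e)) (fun y : Vert (Set P) l → Vert (Set Q) k => h fun p => y p.1.1) :=
    fun u v huv => hh _ _ fun p => huv p.1.1
  have h2 : Poly (Edge (RX e)) (fun y : Vert (Set P) l → Vert (Set Q) k => h fun p => y p.1.2) :=
    fun u v huv => hh _ _ fun p => huv p.1.2
  beta_reduce
  rw [dif_pos h1, dif_pos h2]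
  obtain ⟨f, hf⟩ := hex h hh
  have e1 : (hex _ h1).choose = (E2 Q).map (fun p => p.1.1) f := by
    apply Subtype.ext
    funext y
    have h3 := (hex _ h1).choose_spec y
    rw [hf] at h3
    injection h3 with h3
    exact h3.symm
  have e2 : (hex _ h2).choose = (E2 Q).map (fun p => p.1.2) f := by
    apply Subtype.ext
    funext y
    have h3 := (hex _ h2).choose_spec y
    rw [hf] at h3
    injection h3 with h3
    exact h3.symm
  rw [e1, e2]
  exact hΦ f

/-- The index set of the symmetric operations: the subsets of `Q` which are not fixed. -/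
def NN (Q : Type) [Group Q] : Type := {s : Set Q // ¬ Fx s}

instance (Q : Type) [Group Q] : MulAction Q (NN Q) where
  smul := fun q s => ⟨q • s.1, fun h => s.2 ((Fx.smul_iff q).1 h)⟩
  one_smul := fun s => Subtype.ext (one_smul Q s.1)
  mul_smul := fun q p s => Subtype.ext (mul_smul q p s.1)

theorem NN.smul_val {Q : Type} [Group Q] (q : Q) (s : NN Q) : (q • s).1 = q • s.1 := rfl

/-- The encoding for a simple group of larger order than `Q` has a `Q`-symmetric polymorphism. -/
theorem exists_sym {Q P : Type} [Group Q] [Group P] [Nontrivial Q] [Finite Q] [Finite P]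
    [IsSimpleGroup P] (hcard : Nat.card Q < Nat.card P) {l : ℕ} (e' : Fin l ≃ Fin 4 ⊕ P) :
    ∃ g : (NN Q → Vert (Set P) l) → Vert (Set P) l, Poly (Edge (RX e')) g ∧
      ∀ (x : NN Q → Vert (Set P) l) (q : Q), g (fun n => x (q • n)) = g x := by
  have : Nonempty (NN Q) := ⟨⟨{1}, not_fx_one⟩⟩
  obtain ⟨Φ, hΦ⟩ := transfer e' (E3 Q (NN Q)) (fix_E3 hcard)
  refine ⟨fun x => Φ (Quotient.mk (tupSetoid Q (NN Q) _) x), ?_, ?_⟩
  · intro u v huv
    exact hΦ (Quotient.mk (tupSetoid Q (NN Q) _) fun n => ⟨(u n, v n), huv n⟩)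
  · intro x q
    refine congrArg Φ (Quotient.sound (s := tupSetoid Q (NN Q) _) ⟨q⁻¹, fun n => ?_⟩)
    beta_reduce
    rw [smul_inv_smul]

/-- The encoding for `Q` has no `Q`-symmetric polymorphism. -/
theorem not_sym {Q : Type} [Group Q] [Nontrivial Q] {k : ℕ} (e : Fin k ≃ Fin 4 ⊕ Q)
    (g : (NN Q → Vert (Set Q) k) → Vert (Set Q) k) (hg : Poly (Edge (RX e)) g)
    (hsym : ∀ (x : NN Q → Vert (Set Q) k) (q : Q), g (fun n => x (q • n)) = g x) : False := by
  obtain ⟨f, hf, hf'⟩ := exists_res e g hg
  refine hf.nfx (fun n : NN Q => n.1) (fun n => n.2) ?_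
  apply fx_of_smul
  intro q
  rw [← hf.equiv]
  have h := hsym (fun n => .bot n.1) q
  rw [hf', hf'] at h
  injection h with h

end Pool.Agent.H84.Chain
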