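import Pool.Agent.H84.Chain.Functor

/-!
# The structure on the power set of a group
-/

set_option autoImplicit false

open scoped Pointwise

namespace Pool.Agent.H84.Chain

variable {Q : Type} [Group Q]

/-- The subsets of `Q` which are fixed by all left translations. -/
def Fx (S : Set Q) : Prop := S = ∅ ∨ S = Set.univ

theorem Fx.smul {S : Set Q} (h : Fx S) (q : Q) : q • S = S := by
  rcases h with rfl | rfl
  · simp
  · simp

theorem fx_of_smul {S : Set Q} (h : ∀ q : Q, q • S = S) : Fx S := by
  rcases S.eq_empty_or_nonempty with h0 | ⟨s, hs⟩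
  · exact Or.inl h0
  · right
    rw [Set.eq_univ_iff_forall]
    intro t
    rw [← h (t * s⁻¹)]
    refine ⟨s, hs, ?_⟩
    simp

theorem fx_iff {S : Set Q} : Fx S ↔ ∀ q : Q, q • S = S := ⟨fun h q => h.smul q, fx_of_smul⟩

omit [Group Q] in
theorem fx_empty : Fx (∅ : Set Q) := Or.inl rfl

theorem not_fx_one [Nontrivial Q] : ¬ Fx ({1} : Set Q) := by
  rintro (h | h)
  · exact Set.singleton_ne_empty _ h
  · obtain ⟨q, hq⟩ := exists_ne (1 : Q)
    have : q ∈ (Set.univ : Set Q) := Set.mem_univ q
    rw [← h] at this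
    exact hq this

theorem Fx.smul_iff {S : Set Q} (q : Q) : Fx (q • S) ↔ Fx S := by
  constructor
  · intro h
    have h1 := h.smul q⁻¹
    rw [inv_smul_smul] at h1
    rw [h1]
    exact h
  · intro h
    rw [h.smul q]
    exact h

/-- Every action has an equivariant map to the power set such that only fixed points are mapped
to fixed points. -/
theorem exists_sel (Q E : Type) [Group Q] [MulAction Q E] :
    ∃ η : E → Set Q, (∀ (q : Q) (e : E), η (q • e) = q • η e) ∧
      ∀ e : E, Fx (η e) → ∀ q : Q, q • e = e := by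
  classical
  let o : E → E := fun e => (Quotient.mk (MulAction.orbitRel Q E) e).out
  have ho : ∀ (q : Q) (e : E), o (q • e) = o e := by
    intro q e
    have : Quotient.mk (MulAction.orbitRel Q E) (q • e) = Quotient.mk (MulAction.orbitRel Q E) e :=
      Quotient.sound ⟨q, rfl⟩
    simp only [o, this]
  have ho' : ∀ e : E, ∃ q : Q, q • e = o e := by
    intro e
    have h := Quotient.mk_out (s := MulAction.orbitRel Q E) e
    exact h
  refine ⟨fun e => {q | o e = q⁻¹ • e}, ?_, ?_⟩
  · intro p e
    ext q
    rw [Set.mem_smul_set_iff_inv_smul_mem]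
    simp only [Set.mem_ofPred_eq, ho, smul_eq_mul, mul_inv_rev, inv_inv, mul_smul]
  · intro e h q
    rcases h with h | h
    · exfalso
      obtain ⟨q, hq⟩ := ho' e
      have : q⁻¹ ∈ (∅ : Set Q) := by
        rw [← h]
        simp [hq]
      exact this
    · have h1 : ∀ q : Q, o e = q⁻¹ • e := by
        intro q
        have : q ∈ (Set.univ : Set Q) := Set.mem_univ q
        rw [← h] at this
        exact this
      have h2 := h1 1
      have h3 := h1 q⁻¹
      rw [inv_one, one_smul] at h2
      rw [inv_inv, h2] at h3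
      exact h3.symm

/-- The relation which combines the relations of the structure on the power set of `Q`. -/
def RI (Q : Type) [Group Q] : Set ((Fin 4 ⊕ Q) → Set Q) :=
  {r | (Fx (r (.inl 2)) → r (.inl 0) = r (.inl 1)) ∧ ¬ Fx (r (.inl 3)) ∧
    ∀ q, r (.inr q) = q • r (.inr 1)}

/-- The same relation with the coordinates enumerated by `Fin k`. -/
def RX {k : ℕ} (e : Fin k ≃ Fin 4 ⊕ Q) : Set (Fin k → Set Q) :=
  {r | (fun i => r (e.symm i)) ∈ RI Q}

theorem mem_RX {k : ℕ} (e : Fin k ≃ Fin 4 ⊕ Q) (r : Fin k → Set Q) :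
    r ∈ RX e ↔ (Fx (r (e.symm (.inl 2))) → r (e.symm (.inl 0)) = r (e.symm (.inl 1))) ∧
      ¬ Fx (r (e.symm (.inl 3))) ∧ ∀ q, r (e.symm (.inr q)) = q • r (e.symm (.inr 1)) := by
  rw [RX, RI, Set.mem_ofPred_eq, Set.mem_ofPred_eq]

/-- A functor with supports such that only elements over fixed points are fixed maps the
encoding to itself. -/
theorem transfer [Finite Q] {k : ℕ} (e : Fin k ≃ Fin 4 ⊕ Q) (E : SF)
    (hfix : ∀ x : E.obj (Set Q), (∀ q : Q, E.map (fun s => q • s) x = x) →
      ∀ s ∈ E.supp x, Fx s) [Finite (Vert (Set Q) k)] :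
    ∃ Φ : E.obj (Vert (Set Q) k) → Vert (Set Q) k,
      ∀ h : E.obj {p : Vert (Set Q) k × Vert (Set Q) k // Edge (RX e) p.1 p.2},
        Edge (RX e) (Φ (E.map (fun p => p.1.1) h)) (Φ (E.map (fun p => p.1.2) h)) := by
  letI : MulAction Q (E.obj (Set Q)) :=
    { smul := fun q x => E.map (fun s => q • s) x
      one_smul := fun x => by
        change E.map (fun s => (1 : Q) • s) x = x
        simp only [one_smul]
        exact E.map_id x
      mul_smul := fun q p x => by
        change E.map (fun s => (q * p) • s) x = E.map (fun s => q • s) (E.map (fun s => p • s) x)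
        rw [E.map_map]
        simp only [mul_smul] }
  have hsmul : ∀ (q : Q) (x : E.obj (Set Q)), q • x = E.map (fun s => q • s) x :=
    fun _ _ => rfl
  obtain ⟨η, hη, hη'⟩ := exists_sel Q (E.obj (Set Q))
  refine ⟨phi E ∅ η, fun h => encode E (RX e) ∅ η ?_ h⟩
  intro h hsupp
  have hfx : ∀ i, Fx (η (E.map (fun r => r i) h)) → ∀ r ∈ E.supp h, Fx (r i) := by
    intro i hi r hr
    refine hfix _ (fun q => hη' _ hi q) _ ?_
    rw [E.supp_map]
    exact ⟨r, hr, rfl⟩
  rw [mem_RX]
  refine ⟨?_, ?_, ?_⟩
  · intro h2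
    congr 1
    refine E.map_congr _ _ _ fun r hr => ?_
    have h3 := hsupp hr
    rw [mem_RX] at h3
    exact h3.1 (hfx _ h2 r hr)
  · intro h3
    obtain ⟨r, hr⟩ := E.supp_ne h
    have h4 := hsupp hr
    rw [mem_RX] at h4
    exact h4.2.1 (hfx _ h3 r hr)
  · intro q
    rw [← hη, hsmul, E.map_map]
    congr 1
    refine E.map_congr _ _ _ fun r hr => ?_
    have h3 := hsupp hr
    rw [mem_RX] at h3
    exact h3.2.2 q

/-- The polymorphisms of the structure on the power set of `Q`. -/
structure IsPol {S : Type} (f : (S → Set Q) → Set Q) : Prop where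
  equiv : ∀ (q : Q) (x : S → Set Q), f (fun s => q • x s) = q • f x
  dep : ∀ a b c : S → Set Q, (∀ s, Fx (c s) → a s = b s) → Fx (f c) → f a = f b
  nfx : ∀ c : S → Set Q, (∀ s, ¬ Fx (c s)) → ¬ Fx (f c)

/-- The tuple which is `{1}` at the coordinate `s` and empty elsewhere. -/
def cs {S : Type} (s : S) : S → Set Q := fun t => {q | q = 1 ∧ t = s}

theorem cs_self {S : Type} (s : S) : (cs s s : Set Q) = {1} := by
  ext q
  simp [cs]

theorem cs_ne {S : Type} {s t : S} (h : t ≠ s) : (cs s t : Set Q) = ∅ := by
  ext q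
  simp [cs, h]

/-- The support of a polymorphism. -/
def sp {S : Type} (f : (S → Set Q) → Set Q) : Set S := {s | ¬ Fx (f (cs s))}

theorem mem_sp {S : Type} (f : (S → Set Q) → Set Q) (s : S) : s ∈ sp f ↔ ¬ Fx (f (cs s)) := by
  rw [sp, Set.mem_ofPred_eq]

theorem IsPol.fx_of_fx {S : Type} {f : (S → Set Q) → Set Q} (hf : IsPol f) {c : S → Set Q}
    (hc : ∀ s, Fx (c s)) : Fx (f c) := by
  apply fx_of_smul
  intro q
  rw [← hf.equiv]
  congr 1
  funext s
  exact (hc s).smul q

theorem IsPol.congr_sp [Nontrivial Q] {S : Type} [Finite S] {f : (S → Set Q) → Set Q}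
    (hf : IsPol f) (a b : S → Set Q) (hab : ∀ s ∈ sp f, a s = b s) : f a = f b := by
  classical
  have key : ∀ T : Finset S, (∀ s ∈ T, s ∉ sp f) → ∀ a b : S → Set Q,
      (∀ s, s ∉ T → a s = b s) → f a = f b := by
    intro T
    induction T using Finset.induction_on with
    | empty =>
      intro _ a b h
      congr 1
      funext s
      exact h s (by simp)
    | insert s T hs ih =>
      intro hT a b h
      have h1 : f a = f (Function.update a s (b s)) := by
        refine hf.dep _ _ (cs s) ?_ ?_
        · intro t ht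
          have hts : t ≠ s := by
            rintro rfl
            rw [cs_self] at ht
            exact not_fx_one ht
          rw [Function.update_of_ne hts]
        · have := hT s (by simp)
          rw [mem_sp, not_not] at this
          exact this
      rw [h1]
      refine ih (fun t ht => hT t (by simp [ht])) _ _ fun t ht => ?_
      by_cases hts : t = s
      · rw [hts, Function.update_self]
      · rw [Function.update_of_ne hts]
        exact h t (by simp [hts, ht])
  have hfin : Fintype S := Fintype.ofFinite S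
  refine key (Finset.univ.filter fun s => s ∉ sp f) (fun s hs => by simpa using hs) a b
    fun s hs => hab s ?_
  simpa using hs

theorem IsPol.fx_iff [Nontrivial Q] {S : Type} [Finite S] {f : (S → Set Q) → Set Q}
    (hf : IsPol f) (c : S → Set Q) : Fx (f c) ↔ ∀ s ∈ sp f, Fx (c s) := by
  classical
  constructor
  · intro hc s hs
    by_contra hcon
    rw [mem_sp] at hs
    apply hs
    have h1 : f (cs s) = f (fun _ => ∅) := by
      refine hf.dep _ _ c ?_ hc
      intro t ht
      have hts : t ≠ s := by
        rintro rfl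
        exact hcon ht
      rw [cs_ne hts]
    rw [h1]
    exact hf.fx_of_fx fun _ => fx_empty
  · intro hc
    rw [hf.congr_sp c (fun s => if s ∈ sp f then c s else ∅) (fun s hs => by rw [if_pos hs])]
    refine hf.fx_of_fx fun s => ?_
    split_ifs with hs
    · exact hc s hs
    · exact fx_empty

theorem IsPol.comp {S T : Type} {f : (S → Set Q) → Set Q} (hf : IsPol f) (φ : S → T) :
    IsPol (fun y : T → Set Q => f (fun s => y (φ s))) where
  equiv := fun q x => hf.equiv q _
  dep := fun a b c h hc => hf.dep _ _ _ (fun s => h (φ s)) hc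
  nfx := fun c hc => hf.nfx _ fun s => hc (φ s)

/-- The functor of the polymorphisms. -/
def E2 (Q : Type) [Group Q] [Nontrivial Q] : SF where
  obj := fun S => {f : (S → Set Q) → Set Q // IsPol f}
  map := fun φ f => ⟨fun y => f.1 (fun s => y (φ s)), f.2.comp φ⟩
  supp := fun f => sp f.1
  map_id := fun _ => rfl
  map_map := fun _ _ _ => rfl
  supp_ne := fun f => by
    by_contra hcon
    rw [Set.not_nonempty_iff_eq_empty] at hcon
    refine f.2.nfx (fun _ => {1}) (fun _ => not_fx_one) ?_
    rw [f.2.fx_iff, hcon]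
    intro s hs
    exact absurd hs (Set.notMem_empty s)
  supp_map := fun φ f => by
    ext t
    rw [mem_sp, f.2.fx_iff]
    push Not
    constructor
    · rintro ⟨s, hs, h⟩
      refine ⟨s, hs, ?_⟩
      by_contra hcon
      rw [cs_ne hcon] at h
      exact h fx_empty
    · rintro ⟨s, hs, rfl⟩
      refine ⟨s, hs, ?_⟩
      rw [cs_self]
      exact not_fx_one
  map_congr := fun φ ψ f h => by
    apply Subtype.ext
    funext y
    exact f.2.congr_sp _ _ fun s hs => by rw [h s hs]

end Pool.Agent.H84.Chain
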